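import Pool.Agent.Y748.SR.Stm6
import Pool.Agent.Y948.SR.ML

/-!
Project SR, statement AUTO: continuous limits of the correlations are nonnegative, symmetric and
stationary.
-/

set_option autoImplicit false

open Finset Filter Topology MeasureTheory

namespace Pool.Agent.Y587.SR

open Pool.Agent.Y748.SR Pool.Agent.Y948.SRML

/-! ### Boxes -/

lemma box_integrable {k : ℕ} {f : (Fin k → ℝ) → ℝ} (hf : Continuous f) (a b : Fin k → ℝ) :
    IntegrableOn f (Set.Icc a b) := hf.continuousOn.integrableOn_compact isCompact_Icc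

lemma nonneg_of_box {k : ℕ} {f : (Fin k → ℝ) → ℝ} (hf : Continuous f)
    (h : ∀ a b : Fin k → ℝ, 0 ≤ ∫ x in Set.Icc a b, f x) (x : Fin k → ℝ) : 0 ≤ f x := by
  by_contra hc
  push Not at hc
  obtain ⟨c, hcc⟩ : ∃ c : ℝ, c = f x / 2 := ⟨_, rfl⟩
  have hc0 : c < 0 := by rw [hcc]; linarith
  have hlt : f x < c := by rw [hcc]; linarith
  have hev : ∀ᶠ y in 𝓝 x, f y < c := hf.continuousAt.eventually_lt continuousAt_const hlt
  obtain ⟨ε, hε, hball⟩ := Metric.eventually_nhds_iff_ball.1 hev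
  obtain ⟨e, he⟩ : ∃ e : ℝ, e = ε / 2 := ⟨_, rfl⟩
  have he0 : 0 < e := by rw [he]; linarith
  have hmem : ∀ y ∈ Set.Icc (fun i => x i - e) (fun i => x i + e), f y ≤ c := by
    intro y hy
    refine (hball y ?_).le
    rw [Metric.mem_ball, dist_pi_lt_iff hε]
    intro i
    have h1 := hy.1 i
    have h2 := hy.2 i
    simp only at h1 h2
    rw [Real.dist_eq, abs_lt]
    constructor <;> linarith
  have h1 := h (fun i => x i - e) (fun i => x i + e)
  have hvol : (volume (Set.Icc (fun i => x i - e) (fun i => x i + e))).toReal = (2 * e) ^ k := by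
    rw [Real.volume_Icc_pi_toReal (fun i => by simp only; linarith)]
    have : ∀ i ∈ (Finset.univ : Finset (Fin k)), x i + e - (x i - e) = 2 * e := fun i _ => by ring
    rw [Finset.prod_congr rfl this, Finset.prod_const, Finset.card_univ, Fintype.card_fin]
  have h2 : ∫ y in Set.Icc (fun i => x i - e) (fun i => x i + e), f y ≤
      ∫ y in Set.Icc (fun i => x i - e) (fun i => x i + e), c := by
    refine setIntegral_mono_on (box_integrable hf _ _) (box_integrable continuous_const _ _)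
      measurableSet_Icc hmem
  rw [setIntegral_const, smul_eq_mul] at h2
  have h3 : 0 < (2 * e) ^ k := by positivity
  have h4 : volume.real (Set.Icc (fun i => x i - e) (fun i => x i + e)) = (2 * e) ^ k := hvol
  rw [h4] at h2
  have h5 : (2 * e) ^ k * c < 0 := mul_neg_of_pos_of_neg h3 hc0
  linarith

lemma eq_of_box {k : ℕ} {f g : (Fin k → ℝ) → ℝ} (hf : Continuous f) (hg : Continuous g)
    (h : ∀ a b : Fin k → ℝ, ∫ x in Set.Icc a b, f x = ∫ x in Set.Icc a b, g x)
    (x : Fin k → ℝ) : f x = g x := by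
  have h1 := nonneg_of_box (f := fun x => f x - g x) (hf.sub hg) (fun a b => by
    rw [integral_sub (box_integrable hf a b) (box_integrable hg a b), h a b, sub_self]) x
  have h2 := nonneg_of_box (f := fun x => g x - f x) (hg.sub hf) (fun a b => by
    rw [integral_sub (box_integrable hg a b) (box_integrable hf a b), h a b, sub_self]) x
  linarith

/-! ### The counting function -/

/-- The number of tuples. -/
noncomputable def Fc (u : ℕ → ℝ) {k : ℕ} (a b : Fin k → ℝ) (x : ℝ) : ℝ :=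
  ({n : Fin k → ℕ | Function.Injective n ∧
    ∀ i, 1 ≤ n i ∧ u (n i) - x ∈ Set.Icc (a i) (b i)}.ncard : ℝ)

lemma corr_Fc (u : ℕ → ℝ) (k N : ℕ) (a b : Fin k → ℝ) :
    corr u k N a b = (1 / N : ℝ) * ∫ x in (0 : ℝ)..N, Fc u a b x := rfl

lemma Fc_nonneg (u : ℕ → ℝ) {k : ℕ} (a b : Fin k → ℝ) (x : ℝ) : 0 ≤ Fc u a b x :=
  Nat.cast_nonneg _

lemma Fc_le {u : ℕ → ℝ} (hu : Sq u) {k : ℕ} (a b : Fin k → ℝ) (x y z : ℝ)
    (h : ∀ i, y ≤ x + a i ∧ x + b i ≤ z) : Fc u a b x ≤ ((iy hu y z).card : ℝ) ^ k := by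
  classical
  have hsub : {n : Fin k → ℕ | Function.Injective n ∧
      ∀ i, 1 ≤ n i ∧ u (n i) - x ∈ Set.Icc (a i) (b i)} ⊆
      (Fintype.piFinset (fun _ : Fin k => iy hu y z) : Set (Fin k → ℕ)) := by
    rintro n ⟨-, hn⟩
    rw [Finset.mem_coe, Fintype.mem_piFinset]
    intro i
    rw [mem_iy]
    obtain ⟨h1, h2, h3⟩ := hn i
    obtain ⟨h4, h5⟩ := h i
    exact ⟨h1, by linarith, by linarith⟩
  have h1 := Set.ncard_le_ncard hsub (Finset.finite_toSet _)
  rw [Set.ncard_coe_finset, Fintype.card_piFinset, Finset.prod_const, Finset.card_univ,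
    Fintype.card_fin] at h1
  unfold Fc
  exact_mod_cast h1

open scoped Classical in
lemma Fc_sum {u : ℕ → ℝ} (hu : Sq u) {k : ℕ} (a b : Fin k → ℝ) (m T x : ℝ)
    (hb : ∀ i, b i ≤ m) (hx : x ≤ T) :
    Fc u a b x = ∑ n ∈ (Fintype.piFinset (fun _ : Fin k => ix hu (T + m))).filter
      Function.Injective, (if ∀ i, u (n i) - x ∈ Set.Icc (a i) (b i) then (1 : ℝ) else 0) := by
  have e : {n : Fin k → ℕ | Function.Injective n ∧
      ∀ i, 1 ≤ n i ∧ u (n i) - x ∈ Set.Icc (a i) (b i)} =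
      ((((Fintype.piFinset (fun _ : Fin k => ix hu (T + m))).filter
        Function.Injective).filter (fun n => ∀ i, u (n i) - x ∈ Set.Icc (a i) (b i)) :
        Finset (Fin k → ℕ)) : Set (Fin k → ℕ)) := by
    ext n
    simp only [Set.mem_ofPred_eq, Finset.coe_filter, Finset.mem_filter, Fintype.mem_piFinset,
      mem_ix]
    constructor
    · rintro ⟨h1, h2⟩
      refine ⟨⟨fun i => ⟨(h2 i).1, ?_⟩, h1⟩, fun i => (h2 i).2⟩
      have h3 := (h2 i).2.2
      have h4 := hb i
      linarith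
    · rintro ⟨⟨h1, h2⟩, h3⟩
      exact ⟨h2, fun i => ⟨(h1 i).1, h3 i⟩⟩
  unfold Fc
  rw [e, Set.ncard_coe_finset, Finset.card_filter]
  push_cast
  rfl

lemma Fc_int {u : ℕ → ℝ} (hu : Sq u) {k : ℕ} (a b : Fin k → ℝ) (A B : ℝ) :
    IntervalIntegrable (Fc u a b) volume A B := by
  classical
  obtain ⟨m, hm⟩ : ∃ m : ℝ, ∀ i, b i ≤ m := by
    obtain ⟨m, hm⟩ := (Set.finite_range b).bddAbove
    exact ⟨m, fun i => hm ⟨i, rfl⟩⟩
  rw [intervalIntegrable_iff]
  have h1 : IntegrableOn (fun x => ∑ n ∈ (Fintype.piFinset (fun _ : Fin k =>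
      ix hu (max A B + m))).filter Function.Injective,
      (if ∀ i, u (n i) - x ∈ Set.Icc (a i) (b i) then (1 : ℝ) else 0)) (Set.uIoc A B) := by
    refine integrable_finsetSum _ fun n _ => ?_
    have hmeas : MeasurableSet {x : ℝ | ∀ i, u (n i) - x ∈ Set.Icc (a i) (b i)} := by
      have e : {x : ℝ | ∀ i, u (n i) - x ∈ Set.Icc (a i) (b i)} =
          ⋂ i, (fun x : ℝ => u (n i) - x) ⁻¹' (Set.Icc (a i) (b i)) := by
        ext x
        simp only [Set.mem_iInter, Set.mem_preimage, Set.mem_ofPred_eq]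
      rw [e]
      exact MeasurableSet.iInter fun i =>
        (measurable_const.sub measurable_id) measurableSet_Icc
    have hfin : IsFiniteMeasure (volume.restrict (Set.uIoc A B)) := by
      refine ⟨?_⟩
      rw [Measure.restrict_apply_univ, Set.uIoc]
      exact measure_Ioc_lt_top
    have h2 : Integrable (({x : ℝ | ∀ i, u (n i) - x ∈ Set.Icc (a i) (b i)}).indicator
        (fun _ => (1 : ℝ))) (volume.restrict (Set.uIoc A B)) :=
      (integrable_const (1 : ℝ)).indicator hmeas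
    refine h2.congr (Filter.Eventually.of_forall fun x => ?_)
    simp only [Set.indicator_apply, Set.mem_ofPred_eq]
  refine h1.congr_fun (fun x hx => ?_) measurableSet_uIoc
  have hx' : x ≤ max A B := (Set.mem_Ioc.1 hx).2
  exact (Fc_sum hu a b m (max A B) x hm hx').symm

/-! ### Symmetry -/

lemma Fc_perm (u : ℕ → ℝ) {k : ℕ} (a b : Fin k → ℝ) (σ : Equiv.Perm (Fin k)) (x : ℝ) :
    Fc u (a ∘ σ) (b ∘ σ) x = Fc u a b x := by
  unfold Fc
  have hinj : Function.Injective (fun n : Fin k → ℕ => n ∘ σ) := by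
    intro n n' h
    funext i
    have := congrFun h (σ.symm i)
    simpa using this
  have e : {n : Fin k → ℕ | Function.Injective n ∧
      ∀ i, 1 ≤ n i ∧ u (n i) - x ∈ Set.Icc ((a ∘ σ) i) ((b ∘ σ) i)} =
      (fun n : Fin k → ℕ => n ∘ σ) '' {n : Fin k → ℕ | Function.Injective n ∧
      ∀ i, 1 ≤ n i ∧ u (n i) - x ∈ Set.Icc (a i) (b i)} := by
    ext n
    constructor
    · rintro ⟨h1, h2⟩
      refine ⟨n ∘ σ.symm, ⟨h1.comp σ.symm.injective, fun i => ?_⟩, ?_⟩
      · have := h2 (σ.symm i)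
        simpa using this
      · funext i
        simp
    · rintro ⟨n', ⟨h1, h2⟩, rfl⟩
      exact ⟨h1.comp σ.injective, fun i => h2 (σ i)⟩
  rw [e, Set.ncard_image_of_injective _ hinj]

lemma int_perm {k : ℕ} (f : (Fin k → ℝ) → ℝ) (a b : Fin k → ℝ) (σ : Equiv.Perm (Fin k)) :
    ∫ x in Set.Icc a b, f (x ∘ σ) = ∫ x in Set.Icc (a ∘ σ) (b ∘ σ), f x := by
  have hmp := volume_measurePreserving_piCongrLeft (fun _ : Fin k => ℝ) σ.symm
  have he : ∀ x : Fin k → ℝ,
      MeasurableEquiv.piCongrLeft (fun _ : Fin k => ℝ) σ.symm x = x ∘ σ := by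
    intro x
    funext i
    have h1 := Equiv.piCongrLeft_apply_apply (fun _ : Fin k => ℝ) σ.symm x (σ i)
    rw [Equiv.symm_apply_apply] at h1
    exact h1
  have h := hmp.setIntegral_preimage_emb
    (MeasurableEquiv.piCongrLeft (fun _ : Fin k => ℝ) σ.symm).measurableEmbedding f
    (Set.Icc (a ∘ σ) (b ∘ σ))
  simp only [he] at h
  rw [← h]
  congr 1
  have hset : (⇑(MeasurableEquiv.piCongrLeft (fun _ : Fin k => ℝ) σ.symm) ⁻¹'
      Set.Icc (a ∘ σ) (b ∘ σ)) = Set.Icc a b := by
    ext x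
    rw [Set.mem_preimage, he, Set.mem_Icc, Set.mem_Icc]
    constructor
    · rintro ⟨h1, h2⟩
      refine ⟨fun i => ?_, fun i => ?_⟩
      · have := h1 (σ.symm i)
        simpa using this
      · have := h2 (σ.symm i)
        simpa using this
    · rintro ⟨h1, h2⟩
      exact ⟨fun i => h1 (σ i), fun i => h2 (σ i)⟩
  rw [hset]

/-! ### Translations -/

lemma Fc_shift (u : ℕ → ℝ) {k : ℕ} (a b : Fin k → ℝ) (t x : ℝ) :
    Fc u (fun i => a i + t) (fun i => b i + t) x = Fc u a b (x + t) := by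
  unfold Fc
  congr 2
  ext n
  simp only [Set.mem_ofPred_eq, Set.mem_Icc]
  refine and_congr_right fun _ => forall_congr' fun i => and_congr_right fun _ => ?_
  constructor
  · rintro ⟨h1, h2⟩
    constructor <;> linarith
  · rintro ⟨h1, h2⟩
    constructor <;> linarith

lemma int_shift {k : ℕ} (f : (Fin k → ℝ) → ℝ) (a b : Fin k → ℝ) (t : ℝ) :
    ∫ x in Set.Icc a b, f (fun i => x i + t) =
      ∫ x in Set.Icc (fun i => a i + t) (fun i => b i + t), f x := by
  have hmp := measurePreserving_add_right (volume : Measure (Fin k → ℝ)) (fun _ : Fin k => t)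
  have h := hmp.setIntegral_preimage_emb (measurableEmbedding_addRight (fun _ : Fin k => t)) f
    (Set.Icc (fun i => a i + t) (fun i => b i + t))
  rw [← h]
  have hset : ((fun x : Fin k → ℝ => x + fun _ => t) ⁻¹'
      Set.Icc (fun i => a i + t) (fun i => b i + t)) = Set.Icc a b := by
    ext x
    rw [Set.mem_preimage, Set.mem_Icc, Set.mem_Icc]
    constructor
    · rintro ⟨h1, h2⟩
      refine ⟨fun i => ?_, fun i => ?_⟩
      · have := h1 i
        simp only [Pi.add_apply] at this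
        linarith
      · have := h2 i
        simp only [Pi.add_apply] at this
        linarith
    · rintro ⟨h1, h2⟩
      refine ⟨fun i => ?_, fun i => ?_⟩
      · have := h1 i
        simp only [Pi.add_apply]
        linarith
      · have := h2 i
        simp only [Pi.add_apply]
        linarith
  rw [hset]
  rfl

lemma log_tend' (k m : ℕ) :
    Tendsto (fun N : ℕ => Real.log (N + m + 3) ^ k * (1 / N : ℝ)) atTop (𝓝 0) := by
  have h1 : Tendsto (fun x : ℝ => Real.log x ^ k / x) atTop (𝓝 0) := by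
    have := (Real.isLittleO_pow_log_id_atTop (n := k)).tendsto_div_nhds_zero
    simpa using this
  have hcast : Tendsto (fun N : ℕ => (N : ℝ)) atTop atTop := tendsto_natCast_atTop_atTop
  have h2 : Tendsto (fun N : ℕ => (N : ℝ) + m + 3) atTop atTop := by
    have := tendsto_atTop_add_const_right atTop ((m : ℝ) + 3) hcast
    refine this.congr fun N => by ring
  have h3 := h1.comp h2
  have h4 : Tendsto (fun N : ℕ => 1 + ((m : ℝ) + 3) * (1 / (N : ℝ))) atTop (𝓝 (1 + (m + 3) * 0)) :=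
    ((tendsto_one_div_atTop_nhds_zero_nat).const_mul _).const_add _
  have h5 := h3.mul h4
  rw [zero_mul] at h5
  refine h5.congr' ?_
  filter_upwards [eventually_gt_atTop 0] with N hN
  have hN' : (0:ℝ) < N := by exact_mod_cast hN
  have hy : (0:ℝ) < (N : ℝ) + m + 3 := by positivity
  simp only [Function.comp]
  field_simp
  ring

/-- The correlations of translated boxes. -/
lemma corr_shift {u : ℕ → ℝ} (hu : Sq u) {k : ℕ} (a b : Fin k → ℝ) (t : ℝ) :
    Tendsto (fun N : ℕ => corr u k N (fun i => a i + t) (fun i => b i + t) - corr u k N a b)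
      atTop (𝓝 0) := by
  obtain ⟨m, hma, hmb, hmt⟩ : ∃ m : ℕ, (∀ i, |a i| ≤ m) ∧ (∀ i, |b i| ≤ m) ∧ |t| ≤ m := by
    obtain ⟨A, hA⟩ := (Set.finite_range fun i => |a i|).bddAbove
    obtain ⟨B, hB⟩ := (Set.finite_range fun i => |b i|).bddAbove
    obtain ⟨m, hm⟩ := exists_nat_ge (max A (max B |t|))
    exact ⟨m, fun i => (hA ⟨i, rfl⟩).trans ((le_max_left _ _).trans hm),
      fun i => (hB ⟨i, rfl⟩).trans ((le_max_left _ _).trans ((le_max_right _ _).trans hm)),
      (le_max_right _ _).trans ((le_max_right _ _).trans hm)⟩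
  obtain ⟨C, hC0, hC⟩ := iy_card hu
  obtain ⟨M0, hM0⟩ : ∃ M0, M0 = |∫ x in (0 : ℝ)..t, Fc u a b x| := ⟨_, rfl⟩
  obtain ⟨Q, hQ⟩ : ∃ Q : ℝ, Q = (((4 * m : ℕ) : ℝ) + 1) * C := ⟨_, rfl⟩
  have hQ0 : 0 ≤ Q := by rw [hQ]; positivity
  have hlim : Tendsto (fun N : ℕ => |t| * Q ^ k * (Real.log (N + (2 * m : ℕ) + 3) ^ k * (1 / N : ℝ))
      + M0 * (1 / N : ℝ)) atTop (𝓝 0) := by
    have h1 := (log_tend' k (2 * m)).const_mul (|t| * Q ^ k)
    have h2 := (tendsto_one_div_atTop_nhds_zero_nat (𝕜 := ℝ)).const_mul M0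
    have h3 := h1.add h2
    simpa using h3
  refine squeeze_zero_norm' ?_ hlim
  filter_upwards [eventually_ge_atTop (2 * m + 1)] with N hN
  have hN0 : (0 : ℝ) < N := by
    have : 0 < N := by omega
    exact_mod_cast this
  have hNm : (2 * m : ℝ) + 1 ≤ N := by exact_mod_cast hN
  have hI : ∀ A B : ℝ, IntervalIntegrable (Fc u a b) volume A B := Fc_int hu a b
  have e1 : corr u k N (fun i => a i + t) (fun i => b i + t) - corr u k N a b =
      (1 / N : ℝ) * ((∫ x in (N : ℝ)..(N + t), Fc u a b x) - ∫ x in (0 : ℝ)..t, Fc u a b x) := by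
    rw [corr_Fc, corr_Fc]
    have h1 : ∫ x in (0 : ℝ)..N, Fc u (fun i => a i + t) (fun i => b i + t) x =
        ∫ x in (0 : ℝ)..N, Fc u a b (x + t) :=
      intervalIntegral.integral_congr fun x _ => Fc_shift u a b t x
    rw [h1, intervalIntegral.integral_comp_add_right (Fc u a b) t, zero_add]
    have h2 := intervalIntegral.integral_add_adjacent_intervals (hI 0 t) (hI t (N + t))
    have h3 := intervalIntegral.integral_add_adjacent_intervals (hI 0 N) (hI N (N + t))
    have h4 : (∫ x in t..(N : ℝ) + t, Fc u a b x) - ∫ x in (0 : ℝ)..N, Fc u a b x =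
        (∫ x in (N : ℝ)..(N + t), Fc u a b x) - ∫ x in (0 : ℝ)..t, Fc u a b x := by linarith
    rw [← h4]
    ring
  have hb : ∀ x ∈ Set.uIoc (N : ℝ) (N + t), ‖Fc u a b x‖ ≤
      (Q * Real.log (N + (2 * m : ℕ) + 3)) ^ k := by
    intro x hx
    rw [Real.norm_of_nonneg (Fc_nonneg u a b x)]
    have hx2 : |x - N| ≤ |t| := by
      have h5 := Set.mem_uIoc.1 hx
      rcases h5 with h5 | h5
      · rw [abs_of_nonneg (by linarith)]
        exact le_trans (by linarith) (le_abs_self t)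
      · rw [abs_of_nonpos (by linarith)]
        exact le_trans (by linarith) (neg_le_abs t)
    obtain ⟨hx3, hx4⟩ := abs_le.1 (hx2.trans hmt)
    have h6 := Fc_le hu a b x ((N : ℝ) - 2 * m) ((N : ℝ) - 2 * m + (4 * m : ℕ)) (fun i => by
      obtain ⟨g1, g2⟩ := abs_le.1 (hma i)
      obtain ⟨g3, g4⟩ := abs_le.1 (hmb i)
      push_cast
      constructor <;> linarith)
    refine h6.trans ?_
    refine pow_le_pow_left₀ (Nat.cast_nonneg _) ?_ k
    refine (hC _ (by linarith) (4 * m)).trans (le_of_eq ?_)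
    rw [hQ]
    have e : (N : ℝ) - 2 * m + (4 * m : ℕ) + 3 = N + (2 * m : ℕ) + 3 := by push_cast; ring
    rw [e]
    ring
  have h7 := intervalIntegral.norm_integral_le_of_norm_le_const hb
  rw [add_sub_cancel_left, Real.norm_eq_abs] at h7
  rw [Real.norm_eq_abs, e1, abs_mul, abs_of_nonneg (by positivity : (0 : ℝ) ≤ 1 / N)]
  have h8 := abs_sub (∫ x in (N : ℝ)..(N + t), Fc u a b x) (∫ x in (0 : ℝ)..t, Fc u a b x)
  rw [← hM0] at h8
  have h9 : |(∫ x in (N : ℝ)..(N + t), Fc u a b x) - ∫ x in (0 : ℝ)..t, Fc u a b x| ≤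
      (Q * Real.log (N + (2 * m : ℕ) + 3)) ^ k * |t| + M0 := by linarith
  refine (mul_le_mul_of_nonneg_left h9 (by positivity : (0 : ℝ) ≤ 1 / N)).trans (le_of_eq ?_)
  rw [mul_pow]
  ring

theorem t_AUTO : S_AUTO := by
  intro u hu I l hl N hN k f hf hlim
  refine ⟨?_, ?_, ?_⟩
  · refine nonneg_of_box hf fun a b => ?_
    refine ge_of_tendsto' (hlim a b) fun j => ?_
    rw [corr_Fc]
    refine mul_nonneg (by positivity) ?_
    exact intervalIntegral.integral_nonneg (Nat.cast_nonneg _) fun x _ => Fc_nonneg u a b x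
  · intro σ
    refine eq_of_box (f := fun x => f (x ∘ σ)) (by fun_prop) hf fun a b => ?_
    rw [int_perm]
    have h1 := hlim (a ∘ σ) (b ∘ σ)
    have h2 : ∀ j, corr u k (N j) (a ∘ σ) (b ∘ σ) = corr u k (N j) a b := by
      intro j
      rw [corr_Fc, corr_Fc]
      congr 1
      exact intervalIntegral.integral_congr fun x _ => Fc_perm u a b σ x
    simp only [h2] at h1
    exact tendsto_nhds_unique h1 (hlim a b)
  · intro x t
    refine eq_of_box (f := fun x => f (fun i => x i + t)) (by fun_prop) hf (fun a b => ?_) x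
    rw [int_shift]
    have h1 := (corr_shift hu a b t).comp hN
    have h2 := (hlim a b).add h1
    rw [add_zero] at h2
    have h3 : Tendsto (fun j => corr u k (N j) (fun i => a i + t) (fun i => b i + t)) l
        (𝓝 (∫ x in Set.Icc a b, f x)) := by
      refine h2.congr fun j => ?_
      simp only [Function.comp]
      ring
    exact tendsto_nhds_unique (hlim _ _) h3

end Pool.Agent.Y587.SR
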