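import Pool.Agent.Y748.SR.Stm4
import Pool.Agent.Y748.Seq4

/-!
Project SR: the normalised points of a sequence with the counting function of the zeta zeros.
-/

set_option autoImplicit false

open Finset Filter Topology MeasureTheory

namespace Pool.Agent.Y587.SR

open Pool.Agent.Y748 Pool.Agent.Y748.SR

lemma nrm_mono' {x y : ℝ} (hx : 1 ≤ x) (hxy : x ≤ y) :
    nrm x + (y - x) * (Real.log x / (2 * Real.pi)) ≤ nrm y := by
  have hpi := Real.pi_pos
  have h := conv_log (by linarith : 0 < x) hxy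
  have e1 : nrm x + (y - x) * (Real.log x / (2 * Real.pi)) =
      (x * Real.log x + (y - x) * Real.log x) / (2 * Real.pi) := by
    unfold nrm
    ring
  rw [e1]
  unfold nrm
  apply div_le_div_of_nonneg_right _ (by positivity)
  linarith

lemma nrm_mono {x y : ℝ} (hx : 1 ≤ x) (hxy : x ≤ y) : nrm x ≤ nrm y := by
  have h := nrm_mono' hx hxy
  have h2 : 0 ≤ (y - x) * (Real.log x / (2 * Real.pi)) :=
    mul_nonneg (by linarith) (div_nonneg (Real.log_nonneg hx) (by positivity))
  linarith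

lemma two_pi_le_log {t : ℝ} (ht : Real.exp (2 * Real.pi) ≤ t) : 2 * Real.pi ≤ Real.log t := by
  rw [Real.le_log_iff_exp_le ((Real.exp_pos _).trans_le ht)]
  exact ht

lemma le_nrm {t : ℝ} (ht : Real.exp (2 * Real.pi) ≤ t) : t ≤ nrm t := by
  have hpi := Real.pi_pos
  have h0 : 0 < t := (Real.exp_pos _).trans_le ht
  have h := two_pi_le_log ht
  unfold nrm
  rw [le_div_iff₀ (by positivity)]
  exact mul_le_mul_of_nonneg_left h h0.le

theorem sq_of {γ : ℕ → ℝ} {NZ : ℝ → ℕ} (hG : Good γ NZ) (h1 : 1 < γ 1) {C0 : ℝ} (hC0 : 0 < C0)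
    (hz : ∀ t : ℝ, 3 ≤ t → (NZ (t + 1) : ℝ) - NZ (t - 1) ≤ C0 * Real.log t) :
    Sq fun n => nrm (γ n) := by
  have hpi := Real.pi_pos
  have hγ : ∀ n, 1 ≤ n → 1 < γ n := fun n hn => h1.trans_le (hG.mono le_rfl hn)
  refine ⟨fun n hn => nrm_mono (hγ n hn).le (hG.mono hn (Nat.le_succ n)), ?_, ?_, ?_⟩
  · show 0 < nrm (γ 1)
    unfold nrm
    have := Real.log_pos h1
    have : 0 < γ 1 := by linarith
    positivity
  · rw [Metric.tendsto_atTop]
    intro ε hε
    have e1 := hG.nrm_le (ε / 2) (by positivity)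
    have e2 := hG.nrm_ge (ε / 2) (by positivity)
    obtain ⟨N1, hN1⟩ := Filter.eventually_atTop.1 (e1.and e2)
    refine ⟨max N1 1, fun n hn => ?_⟩
    obtain ⟨a1, a2⟩ := hN1 n ((le_max_left _ _).trans hn)
    have hn1 : 1 ≤ n := (le_max_right _ _).trans hn
    have hn0 : (0 : ℝ) < n := by
      have : 0 < n := hn1
      exact_mod_cast this
    rw [Real.dist_eq, abs_lt]
    constructor
    · have : 1 - ε / 2 ≤ nrm (γ n) / n := by
        rw [le_div_iff₀ hn0]
        have h3 : (1 + ε / 2) * ((1 - ε / 2) * n) ≤ (1 + ε / 2) * nrm (γ n) := by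
          have h4 : (1 + ε / 2) * ((1 - ε / 2) * n) = n - ε ^ 2 / 4 * n := by ring
          have h5 : 0 ≤ ε ^ 2 / 4 * (n : ℝ) := by positivity
          linarith
        exact le_of_mul_le_mul_left h3 (by positivity)
      linarith
    · have : nrm (γ n) / n ≤ 1 + ε / 2 := by
        rw [div_le_iff₀ hn0]
        exact a1
      linarith
  · obtain ⟨B0, hB0⟩ : ∃ B0, B0 = Real.exp (2 * Real.pi) := ⟨_, rfl⟩
    have hB03 : 3 ≤ B0 := by
      rw [hB0]
      have := Real.add_one_le_exp (2 * Real.pi)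
      have := Real.pi_gt_three
      linarith
    obtain ⟨B1, hB1⟩ : ∃ B1, B1 = max B0 (nrm B0 + 1) := ⟨_, rfl⟩
    have hl2 : 0 < Real.log 2 := Real.log_pos (by norm_num)
    refine ⟨C0 + NZ B1 / Real.log 2, fun x hx => ?_⟩
    obtain ⟨A, hA⟩ : ∃ A : Set ℕ, A = {n : ℕ | 1 ≤ n ∧ nrm (γ n) ∈ Set.Icc x (x + 1)} :=
      ⟨_, rfl⟩
    have hlx : Real.log 2 ≤ Real.log (x + 2) := Real.log_le_log (by norm_num) (by linarith)
    have hlx0 : 0 < Real.log (x + 2) := by linarith
    show ((({n : ℕ | 1 ≤ n ∧ nrm (γ n) ∈ Set.Icc x (x + 1)} : Set ℕ)).ncard : ℝ) ≤ _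
    rw [← hA]
    have hNZ0 : (0 : ℝ) ≤ NZ B1 / Real.log 2 := by positivity
    rcases A.eq_empty_or_nonempty with he | he
    · rw [he, Set.ncard_empty, Nat.cast_zero]
      positivity
    obtain ⟨n0, hn0⟩ : ∃ n0, n0 = sInf A := ⟨_, rfl⟩
    have hn0A : n0 ∈ A := by rw [hn0]; exact Nat.sInf_mem he
    have hn0le : ∀ n ∈ A, n0 ≤ n := by
      intro n hn
      rw [hn0]
      exact Nat.sInf_le hn
    rw [hA] at hn0A
    obtain ⟨hn01, hx1, hx2⟩ := hn0A
    have ht1 := hγ n0 hn01
    by_cases ht : B0 ≤ γ n0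
    · have htl : 2 * Real.pi ≤ Real.log (γ n0) := two_pi_le_log (by rw [← hB0]; exact ht)
      have htn : γ n0 ≤ nrm (γ n0) := le_nrm (by rw [← hB0]; exact ht)
      have hsub : A ⊆ (Finset.Ioc (NZ (γ n0 + 1 / 2 - 1)) (NZ (γ n0 + 1 / 2 + 1)) : Set ℕ) := by
        intro n hn
        have hle := hn0le n hn
        rw [hA] at hn
        obtain ⟨hn1, hy1, hy2⟩ := hn
        have hγn : γ n0 ≤ γ n := hG.mono hn01 hle
        have hup : γ n ≤ γ n0 + 1 := by
          by_contra hc
          push Not at hc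
          have h3 := nrm_mono' ht1.le hγn
          have h4 : 1 ≤ Real.log (γ n0) / (2 * Real.pi) := by
            rw [le_div_iff₀ (by positivity), one_mul]
            exact htl
          have h5 : (γ n - γ n0) * 1 ≤ (γ n - γ n0) * (Real.log (γ n0) / (2 * Real.pi)) :=
            mul_le_mul_of_nonneg_left h4 (by linarith)
          linarith
        rw [Finset.coe_Ioc, Set.mem_Ioc]
        constructor
        · by_contra hc
          push Not at hc
          have := (hG.le_iff n hn1 _).2 hc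
          linarith
        · exact (hG.le_iff n hn1 _).1 (by linarith)
      have hcard := Set.ncard_le_ncard hsub (Finset.finite_toSet _)
      rw [Set.ncard_coe_finset, Nat.card_Ioc] at hcard
      have hmono : NZ (γ n0 + 1 / 2 - 1) ≤ NZ (γ n0 + 1 / 2 + 1) := hG.NZ_mono (by linarith)
      have hcard2 : (A.ncard : ℝ) ≤ (NZ (γ n0 + 1 / 2 + 1) : ℝ) - NZ (γ n0 + 1 / 2 - 1) := by
        rw [← Nat.cast_sub hmono]
        exact_mod_cast hcard
      refine hcard2.trans ((hz _ (by linarith)).trans ?_)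
      have h6 : Real.log (γ n0 + 1 / 2) ≤ Real.log (x + 2) :=
        Real.log_le_log (by linarith) (by linarith)
      calc C0 * Real.log (γ n0 + 1 / 2) ≤ C0 * Real.log (x + 2) :=
            mul_le_mul_of_nonneg_left h6 hC0.le
        _ ≤ (C0 + NZ B1 / Real.log 2) * Real.log (x + 2) :=
            mul_le_mul_of_nonneg_right (by linarith) hlx0.le
    · push Not at ht
      have hxB : x ≤ nrm B0 := hx1.trans (nrm_mono ht1.le ht.le)
      have hsub : A ⊆ (Finset.Ioc 0 (NZ B1) : Set ℕ) := by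
        intro n hn
        rw [hA] at hn
        obtain ⟨hn1, hy1, hy2⟩ := hn
        rw [Finset.coe_Ioc, Set.mem_Ioc]
        refine ⟨hn1, (hG.le_iff n hn1 _).1 ?_⟩
        rw [hB1]
        by_cases hc : B0 ≤ γ n
        · have h3 : γ n ≤ nrm (γ n) := le_nrm (by rw [← hB0]; exact hc)
          exact le_max_of_le_right (by linarith)
        · exact le_max_of_le_left (not_le.1 hc).le
      have hcard := Set.ncard_le_ncard hsub (Finset.finite_toSet _)
      rw [Set.ncard_coe_finset, Nat.card_Ioc, Nat.sub_zero] at hcard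
      have hcard2 : (A.ncard : ℝ) ≤ NZ B1 := by exact_mod_cast hcard
      refine hcard2.trans ?_
      calc (NZ B1 : ℝ) = NZ B1 / Real.log 2 * Real.log 2 := by field_simp
        _ ≤ NZ B1 / Real.log 2 * Real.log (x + 2) := mul_le_mul_of_nonneg_left hlx hNZ0
        _ ≤ (C0 + NZ B1 / Real.log 2) * Real.log (x + 2) :=
            mul_le_mul_of_nonneg_right (by linarith) hlx0.le

end Pool.Agent.Y587.SR
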