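import Pool.Agent.Y748.SR.Stm5
import Pool.Agent.Y587.SR.SqOf

/-!
Project SR, statement SQZ: the normalised ordinates of the zeros of zeta are a sequence in `Sq`.
-/

set_option autoImplicit false

open Finset Filter Topology MeasureTheory

namespace Pool.Agent.Y587.SR

open Pool.Agent.Y748 Pool.Agent.Y748.SR
open SG (ord NZ)

lemma one_lt_ord_one (RH : RiemannHypothesis) (hL : S_LOW) : 1 < ord 1 := by
  by_contra hc
  push Not at hc
  have hb : 1 ∈ W200.HW.Ix 1 := W200.HW.mem_Ix.2 ⟨le_rfl, hc⟩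
  obtain ⟨h0, -⟩ := W200.HW.zero_at RH hb
  refine hL (ord 1) (SG.ord_pos le_rfl) hc ?_
  rw [← h0]
  congr 1
  ring

lemma NZ_short (RH : RiemannHypothesis) : ∃ C : ℝ, 0 < C ∧ ∀ t : ℝ, 3 ≤ t →
    (NZ (t + 1) : ℝ) - NZ (t - 1) ≤ C * Real.log t := by
  obtain ⟨C, hC, h⟩ := H370.zcount H370.good_zeta
  refine ⟨C, hC, fun t ht => ?_⟩
  rw [← N_block RH (by linarith) (by linarith), Pool.Agent.Results.MP_103a5c_nt.BohrSetPairs.N_eq]
  exact h t ht

theorem t_SQZ : S_SQZ := by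
  intro RH hL
  obtain ⟨C, hC, h⟩ := NZ_short RH
  exact sq_of (good RH) (one_lt_ord_one RH hL) hC h

end Pool.Agent.Y587.SR
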