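import Pool.Agent.Y748.SR.Stm4
import Pool.Agent.Y748.Seq4

/-!
Project SR, statement BLK2: blocks with normalised points and cutoff.
-/

set_option autoImplicit false

open Finset Filter Topology MeasureTheory

namespace Pool.Agent.Y587.SR

open Pool.Agent.Y748 Pool.Agent.Y748.SR

lemma rr_cont {R : ℝ → ℝ} (hR : Continuous R) : Continuous (rr R) := by
  have h : Continuous (Function.uncurry fun x α : ℝ => R α * Real.cos (2 * Real.pi * x * α)) := by
    unfold Function.uncurry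
    fun_prop
  exact intervalIntegral.continuous_parametric_intervalIntegral_of_continuous' h (-1) 1

lemma cut_cont (K : ℕ) : Continuous (cut K) := by
  unfold cut
  fun_prop

lemma cut_nonneg (K : ℕ) (v : ℝ) : 0 ≤ cut K v := le_max_left _ _

lemma cut_le_one (K : ℕ) (v : ℝ) : cut K v ≤ 1 := max_le zero_le_one (min_le_left _ _)

lemma cut_one {K : ℕ} {v : ℝ} (h : |v| < K) : cut K v = 1 := by
  unfold cut
  rw [min_eq_left (by linarith), max_eq_right zero_le_one]

lemma cut_zero {K : ℕ} {v : ℝ} (h : (K : ℝ) + 1 ≤ |v|) : cut K v = 0 := by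
  unfold cut
  rw [max_eq_left]
  exact (min_le_right _ _).trans (by linarith)

/-- The normalised points and the linearised points. -/
lemma nrm_lin {T x y : ℝ} (hT : 1 < T) (hTx : T < x) (hxy : x ≤ y) (hy : y ≤ 2 * T) :
    0 ≤ (nrm y - nrm x) - (y - x) * Real.log T / (2 * Real.pi) ∧
    (nrm y - nrm x) - (y - x) * Real.log T / (2 * Real.pi) ≤
      2 / Real.log T * ((y - x) * Real.log T / (2 * Real.pi)) := by
  have hpi := Real.pi_pos
  have hx0 : 0 < x := by linarith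
  have hl : 0 < Real.log T := Real.log_pos hT
  have h1 := conv_log hx0 hxy
  have h2 := conv_log' hx0 hxy
  have h3 : Real.log T ≤ Real.log x := Real.log_le_log (by linarith) hTx.le
  have h4 : Real.log y ≤ Real.log T + 1 := by
    have h5 : Real.log y ≤ Real.log (2 * T) := Real.log_le_log (by linarith) hy
    rw [Real.log_mul (by norm_num) (by linarith)] at h5
    have h6 : Real.log 2 ≤ 1 := by
      have := Real.log_two_lt_d9
      linarith
    linarith
  have h7 : (y - x) * Real.log T ≤ (y - x) * Real.log x :=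
    mul_le_mul_of_nonneg_left h3 (by linarith)
  have h8 : (y - x) * (Real.log y + 1) ≤ (y - x) * (Real.log T + 2) :=
    mul_le_mul_of_nonneg_left (by linarith) (by linarith)
  have e : (nrm y - nrm x) - (y - x) * Real.log T / (2 * Real.pi) =
      ((y * Real.log y - x * Real.log x) - (y - x) * Real.log T) / (2 * Real.pi) := by
    unfold nrm
    ring
  have e2 : 2 / Real.log T * ((y - x) * Real.log T / (2 * Real.pi)) =
      (2 * (y - x)) / (2 * Real.pi) := by
    field_simp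
  rw [e, e2]
  constructor
  · apply div_nonneg _ (by positivity)
    linarith
  · apply div_le_div_of_nonneg_right _ (by positivity)
    linarith

/-- Both signs. -/
lemma nrm_lin' {T x y : ℝ} (hT : 1 < T) (hTx : T < x) (hTy : T < y) (hx : x ≤ 2 * T)
    (hy : y ≤ 2 * T) :
    |(y - x) * Real.log T / (2 * Real.pi)| ≤ |nrm y - nrm x| ∧
    |(nrm y - nrm x) - (y - x) * Real.log T / (2 * Real.pi)| ≤
      2 / Real.log T * |(y - x) * Real.log T / (2 * Real.pi)| := by
  have hpi := Real.pi_pos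
  have hl : 0 < Real.log T := Real.log_pos hT
  have main : ∀ a b : ℝ, T < a → a ≤ b → b ≤ 2 * T →
      |(b - a) * Real.log T / (2 * Real.pi)| ≤ |nrm b - nrm a| ∧
      |(nrm b - nrm a) - (b - a) * Real.log T / (2 * Real.pi)| ≤
        2 / Real.log T * |(b - a) * Real.log T / (2 * Real.pi)| := by
    intro a b ha hab hb
    obtain ⟨h1, h2⟩ := nrm_lin hT ha hab hb
    have h3 : 0 ≤ (b - a) * Real.log T / (2 * Real.pi) :=
      div_nonneg (mul_nonneg (by linarith) hl.le) (by positivity)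
    rw [abs_of_nonneg h3, abs_of_nonneg h1, abs_of_nonneg (by linarith : 0 ≤ nrm b - nrm a)]
    exact ⟨by linarith, h2⟩
  rcases le_total x y with h | h
  · exact main x y hTx h hy
  · obtain ⟨h1, h2⟩ := main y x hTy h hx
    have e1 : (y - x) * Real.log T / (2 * Real.pi) = -((x - y) * Real.log T / (2 * Real.pi)) := by
      ring
    have e2 : nrm y - nrm x = -(nrm x - nrm y) := by ring
    have e3 : (nrm y - nrm x) - (y - x) * Real.log T / (2 * Real.pi) =
        -((nrm x - nrm y) - (x - y) * Real.log T / (2 * Real.pi)) := by ring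
    rw [e3, abs_neg, e1, abs_neg, e2, abs_neg]
    exact ⟨h1, h2⟩

theorem t_BLK2 : S_TAIL → S_TENT → S_BLK2 := by
  intro hTail hTent γ NZ hB R κ hκ0 hκ1 hR
  obtain ⟨A, hA⟩ := hR.decay
  have hA0 : 0 ≤ A := by
    have := (abs_nonneg _).trans (hA 0)
    simpa using this
  obtain ⟨R', κ', hκ0', hκ1', hR', hnn, hten⟩ := hTent
  obtain ⟨C1, hC1⟩ : ∃ C1, C1 = 10 * (|mt R'| + 1) := ⟨_, rfl⟩
  have hC10 : 0 ≤ C1 := by rw [hC1]; positivity
  refine ⟨8 * A * C1, by positivity, fun K hK ε hε => ?_⟩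
  have hK0 : (0 : ℝ) < K := by
    have : 0 < K := hK
    exact_mod_cast this
  obtain ⟨f, hf⟩ : ∃ f : ℝ → ℝ, f = fun v => rr R v * cut K v := ⟨_, rfl⟩
  have hfc : Continuous f := by
    rw [hf]
    exact (rr_cont hR.cont).mul (cut_cont K)
  have hf0 : ∀ v : ℝ, (K : ℝ) + 1 ≤ |v| → f v = 0 := by
    intro v hv
    rw [hf]
    simp only
    rw [cut_zero hv, mul_zero]
  have hsupp : HasCompactSupport f := by
    refine HasCompactSupport.intro (isCompact_Icc (a := -((K : ℝ) + 1)) (b := (K : ℝ) + 1)) ?_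
    intro v hv
    refine hf0 v ?_
    by_contra hc
    push Not at hc
    exact hv ⟨(abs_lt.1 hc).1.le, (abs_lt.1 hc).2.le⟩
  have hunif := hsupp.uniformContinuous_of_continuous hfc
  obtain ⟨e', he'⟩ : ∃ e', e' = ε / 2 / (4 * ((K : ℝ) + 1) * C1 + 1) := ⟨_, rfl⟩
  have hden : 0 < 4 * ((K : ℝ) + 1) * C1 + 1 := by positivity
  have he'0 : 0 < e' := by rw [he']; positivity
  have he'1 : e' * (4 * ((K : ℝ) + 1) * C1) ≤ ε / 2 := by
    have h1 : e' * (4 * ((K : ℝ) + 1) * C1 + 1) = ε / 2 := by rw [he']; field_simp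
    linarith
  obtain ⟨δ, hδ, hfδ⟩ := Metric.uniformContinuous_iff.1 hunif e' he'0
  obtain ⟨Ta, hTa⟩ := hB.pair R' κ' hκ0' hκ1' hR' 1 one_pos
  obtain ⟨Tb, hTb⟩ := hB.pair R κ hκ0 hκ1 hR (ε / 2) (by positivity)
  refine ⟨max (max Ta Tb) (Real.exp (2 * ((K : ℝ) + 1) / δ + 1)), fun T hT => ?_⟩
  have hT1 : Ta ≤ T := (le_max_left _ _).trans ((le_max_left _ _).trans hT)
  have hT2 : Tb ≤ T := (le_max_right _ _).trans ((le_max_left _ _).trans hT)
  have hT3 : Real.exp (2 * ((K : ℝ) + 1) / δ + 1) ≤ T := (le_max_right _ _).trans hT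
  have hq0 : 0 < 2 * ((K : ℝ) + 1) / δ := by positivity
  have hT0 : 0 < T := (Real.exp_pos _).trans_le hT3
  have hlog : 2 * ((K : ℝ) + 1) / δ + 1 ≤ Real.log T := by
    rw [Real.le_log_iff_exp_le hT0]
    exact hT3
  have hlog0 : 0 < Real.log T := by linarith
  have hT4 : 1 < T := by
    rw [← Real.log_pos_iff hT0.le]
    exact hlog0
  have hlogδ : 2 / Real.log T * ((K : ℝ) + 1) < δ := by
    have h1 : 2 * ((K : ℝ) + 1) / δ < Real.log T := by linarith
    rw [div_lt_iff₀ hδ] at h1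
    rw [div_mul_eq_mul_div, div_lt_iff₀ hlog0]
    linarith [mul_comm δ (Real.log T)]
  -- the block
  obtain ⟨S, hS⟩ : ∃ S, S = Finset.Ioc (NZ T) (NZ (2 * T)) := ⟨_, rfl⟩
  obtain ⟨b, hb⟩ : ∃ b : ℝ, b = (NZ (2 * T) : ℝ) - NZ T := ⟨_, rfl⟩
  have hb0 : 0 ≤ b := by
    rw [hb, sub_nonneg]
    exact_mod_cast hB.good.NZ_mono (by linarith)
  have hγ : ∀ n ∈ S, T < γ n ∧ γ n ≤ 2 * T := by
    intro n hn
    rw [hS, Finset.mem_Ioc] at hn
    exact ⟨hB.good.large hn.1, (hB.good.le_iff n (by omega) _).2 hn.2⟩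
  obtain ⟨x, hx⟩ : ∃ x : ℕ → ℝ, x = fun n => γ n * Real.log T / (2 * Real.pi) := ⟨_, rfl⟩
  have hxd : ∀ n m, (γ n - γ m) * Real.log T / (2 * Real.pi) = x n - x m := by
    intro n m
    rw [hx]
    ring
  have pa := hTa T hT1
  have pb := hTb T hT2
  rw [← hS, ← hb] at pa pb
  simp only [hxd] at pa pb
  obtain ⟨t1, -⟩ := hTail S x K hK
  obtain ⟨-, t2⟩ := hTail S x (K + 1) (by omega)
  obtain ⟨PP, hPP⟩ : ∃ PP : ℝ, PP = ∑ n ∈ S, ∑ m ∈ S, (if |x n - x m| ≤ 1 then 1 else 0 : ℝ) :=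
    ⟨_, rfl⟩
  rw [← hPP] at t1 t2
  -- (1)
  have h1 : PP ≤ C1 * b := by
    have e1 : 1 / 10 * PP ≤ ∑ n ∈ S, ∑ m ∈ S, rr R' (x n - x m) := by
      rw [hPP, Finset.mul_sum]
      refine Finset.sum_le_sum fun n _ => ?_
      rw [Finset.mul_sum]
      refine Finset.sum_le_sum fun m _ => ?_
      split_ifs with h
      · rw [mul_one]
        exact hten _ h
      · rw [mul_zero]
        exact hnn _
    have e2 := (abs_le.1 pa).2
    have e3 : mt R' * b ≤ |mt R'| * b := mul_le_mul_of_nonneg_right (le_abs_self _) hb0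
    rw [hC1]
    linarith
  -- (2)
  have h2 : (∑ n ∈ S, ∑ m ∈ S, if (K : ℝ) ≤ |x n - x m| then 1 / (1 + (x n - x m) ^ 2) else 0) ≤
      8 / K * (C1 * b) := t1.trans (mul_le_mul_of_nonneg_left h1 (by positivity))
  have h3 : (∑ n ∈ S, ∑ m ∈ S, (if |x n - x m| ≤ (K : ℝ) + 1 then 1 else 0 : ℝ)) ≤
      4 * ((K : ℝ) + 1) * (C1 * b) := by
    have e1 := t2.trans (mul_le_mul_of_nonneg_left h1 (by positivity :
      (0 : ℝ) ≤ 4 * ((K + 1 : ℕ) : ℝ)))
    push_cast at e1
    exact e1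
  -- (3)
  have p3 : ∀ v : ℝ, |f v - rr R v| ≤ A * (if (K : ℝ) ≤ |v| then 1 / (1 + v ^ 2) else 0) := by
    intro v
    rw [hf]
    simp only
    split_ifs with h
    · have e1 : rr R v * cut K v - rr R v = -(rr R v * (1 - cut K v)) := by ring
      have e2 := cut_nonneg K v
      have e3 := cut_le_one K v
      rw [e1, abs_neg, abs_mul, abs_of_nonneg (by linarith : 0 ≤ 1 - cut K v)]
      calc |rr R v| * (1 - cut K v) ≤ |rr R v| * 1 :=
            mul_le_mul_of_nonneg_left (by linarith) (abs_nonneg _)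
        _ ≤ A / (1 + v ^ 2) := by rw [mul_one]; exact hA v
        _ = A * (1 / (1 + v ^ 2)) := by ring
    · rw [cut_one (not_le.1 h), mul_one, sub_self, abs_zero, mul_zero]
  -- (4)
  have p4 : ∀ n ∈ S, ∀ m ∈ S, |f (nrm (γ n) - nrm (γ m)) - f (x n - x m)| ≤
      e' * (if |x n - x m| ≤ (K : ℝ) + 1 then 1 else 0) := by
    intro n hn m hm
    obtain ⟨g1, g2⟩ := hγ n hn
    obtain ⟨g3, g4⟩ := hγ m hm
    obtain ⟨k1, k2⟩ := nrm_lin' hT4 g3 g1 g4 g2
    rw [hxd] at k1 k2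
    split_ifs with h
    · rw [mul_one]
      have e1 : dist (nrm (γ n) - nrm (γ m)) (x n - x m) < δ := by
        rw [Real.dist_eq]
        refine lt_of_le_of_lt (k2.trans ?_) hlogδ
        exact mul_le_mul_of_nonneg_left h (by positivity)
      have e2 := hfδ e1
      rw [Real.dist_eq] at e2
      exact e2.le
    · push Not at h
      rw [hf0 _ h.le, hf0 _ (h.le.trans k1), sub_self, abs_zero, mul_zero]
  -- (5)
  have s3 : |∑ n ∈ S, ∑ m ∈ S, f (x n - x m) - ∑ n ∈ S, ∑ m ∈ S, rr R (x n - x m)| ≤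
      A * (8 / K * (C1 * b)) := by
    rw [← Finset.sum_sub_distrib]
    refine (Finset.abs_sum_le_sum_abs _ _).trans ?_
    refine le_trans ?_ (mul_le_mul_of_nonneg_left h2 hA0)
    rw [Finset.mul_sum]
    refine Finset.sum_le_sum fun n _ => ?_
    rw [← Finset.sum_sub_distrib, Finset.mul_sum]
    refine (Finset.abs_sum_le_sum_abs _ _).trans ?_
    exact Finset.sum_le_sum fun m _ => p3 _
  have s4 : |∑ n ∈ S, ∑ m ∈ S, f (nrm (γ n) - nrm (γ m)) -
      ∑ n ∈ S, ∑ m ∈ S, f (x n - x m)| ≤ e' * (4 * ((K : ℝ) + 1) * (C1 * b)) := by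
    rw [← Finset.sum_sub_distrib]
    refine (Finset.abs_sum_le_sum_abs _ _).trans ?_
    refine le_trans ?_ (mul_le_mul_of_nonneg_left h3 he'0.le)
    rw [Finset.mul_sum]
    refine Finset.sum_le_sum fun n hn => ?_
    rw [← Finset.sum_sub_distrib, Finset.mul_sum]
    refine (Finset.abs_sum_le_sum_abs _ _).trans ?_
    exact Finset.sum_le_sum fun m hm => p4 n hn m hm
  have s5 : e' * (4 * ((K : ℝ) + 1) * (C1 * b)) ≤ ε / 2 * b := by
    calc e' * (4 * ((K : ℝ) + 1) * (C1 * b)) = e' * (4 * ((K : ℝ) + 1) * C1) * b := by ring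
      _ ≤ ε / 2 * b := mul_le_mul_of_nonneg_right he'1 hb0
  have s6 : A * (8 / K * (C1 * b)) = 8 * A * C1 / K * b := by ring
  rw [s6] at s3
  rw [← hS, ← hb]
  have efin : ∑ n ∈ S, ∑ m ∈ S, rr R (nrm (γ n) - nrm (γ m)) * cut K (nrm (γ n) - nrm (γ m)) =
      ∑ n ∈ S, ∑ m ∈ S, f (nrm (γ n) - nrm (γ m)) := by
    rw [hf]
  rw [efin]
  rw [abs_le] at s3 s4 pb ⊢
  obtain ⟨a1, a2⟩ := s3
  obtain ⟨b1, b2⟩ := s4
  obtain ⟨c1, c2⟩ := pb
  have e9 : (ε + 8 * A * C1 / K) * b = ε / 2 * b + ε / 2 * b + 8 * A * C1 / K * b := by ring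
  rw [e9]
  constructor <;> linarith

end Pool.Agent.Y587.SR
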